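import Pool.Agent.Helper865.APT.Glue

set_option autoImplicit false

open scoped ENNReal BoundedContinuousFunction

namespace Pool.Agent.Results.MP_a3f7df_an.FredholmCharacter

open Pool.Agent.Helper865.APT

/-- **The Fredholm character of `T_G`, `G` an almost periodic `n × n` matrix function, does not
depend on `p`.** For all `p, q` in `(1, ∞)`, the Toeplitz operator `T_G` is left-Fredholm on
`(H^p_-)^n` if and only if it is left-Fredholm on `(H^q_-)^n`, and right-Fredholm on `(H^p_-)^n` if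
and only if it is right-Fredholm on `(H^q_-)^n`. -/
theorem result (n : ℕ) (G : Matrix (Fin n) (Fin n) (ℝ →ᵇ ℂ)) (hG : ∀ i j, G i j ∈ AP)
    (p q : ℝ≥0∞) [Fact (1 ≤ p)] [Fact (1 ≤ q)] (hp : 1 < p) (hp' : p ≠ ⊤) (hq : 1 < q)
    (hq' : q ≠ ⊤) :
    (LeftFredholm (HardyVec p n) (toeplitz hp hp' G) ↔
      LeftFredholm (HardyVec q n) (toeplitz hq hq' G)) ∧
    (RightFredholm (HardyVec p n) (toeplitz hp hp' G) ↔
      RightFredholm (HardyVec q n) (toeplitz hq hq' G)) := by
  rw [left_iff, left_iff, right_iff, right_iff]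
  exact ⟨⟨Pool.Agent.Helper865.ToepAP.left_indep hp hp' hq hq' G hG,
      Pool.Agent.Helper865.ToepAP.left_indep hq hq' hp hp' G hG⟩,
    ⟨Pool.Agent.Helper865.ToepAP.right_indep hp hp' hq hq' G hG,
      Pool.Agent.Helper865.ToepAP.right_indep hq hq' hp hp' G hG⟩⟩

end Pool.Agent.Results.MP_a3f7df_an.FredholmCharacter
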