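import Mathlib
import Pool.Agent.Helper436.TAPfull

set_option autoImplicit false
set_option linter.unusedSectionVars false

open Filter Topology MeasureTheory
open scoped ENNReal NNReal BoundedContinuousFunction

namespace Pool.Agent.Results.MP_a3f7df_an.FredholmInvertible

open Pool.Agent.Helper436

/-- almost periodic functions: the closure, for the uniform norm, of the linear span of the
exponentials `t ↦ e^{i lam t}` -/
def IsAP (g : ℝ →ᵇ ℂ) : Prop :=
  g ∈ closure (Submodule.span ℂ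
    {e : ℝ →ᵇ ℂ | ∃ lam : ℝ, ∀ t : ℝ, e t = Complex.exp (Complex.I * (lam * t))} : Set (ℝ →ᵇ ℂ))

/-- the space `L^p(ℝ)` of complex functions -/
abbrev LpR (p : ℝ≥0∞) : Type := Lp ℂ p (volume : Measure ℝ)

/-- a representing function of an element of `L^p(ℝ)` -/
noncomputable def fn {p : ℝ≥0∞} (f : LpR p) : ℝ → ℂ := f

/-- the open half plane: upper for `s = 1`, lower for `s = -1` -/
def HalfPlane (s : ℝ) : Set ℂ := {z | 0 < s * z.im}

/-- `f` is the boundary function of a function `F` of the Hardy class `H^p` of the upper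
(`s = 1`) or lower (`s = -1`) half plane: `F` is holomorphic there, its `L^p` norms over the
horizontal lines are bounded, and `F(· + i s y) → f` in `L^p` as `y ↓ 0`. -/
def IsHardy (s : ℝ) (p : ℝ≥0∞) (f : ℝ → ℂ) : Prop :=
  ∃ F : ℂ → ℂ, DifferentiableOn ℂ F (HalfPlane s) ∧
    (∃ C : ℝ≥0, ∀ y : ℝ, 0 < y →
      eLpNorm (fun x : ℝ => F ((x : ℂ) + ((s * y : ℝ) : ℂ) * Complex.I)) p volume ≤ C) ∧
    Tendsto (fun y : ℝ =>
      eLpNorm (fun x : ℝ => F ((x : ℂ) + ((s * y : ℝ) : ℂ) * Complex.I) - f x) p volume)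
      (𝓝[>] 0) (𝓝 0)

/-- `P` is the Riesz projection `P_-` of `L^p(ℝ) = H^p_+ ⊕ H^p_-` onto `H^p_-` along `H^p_+`:
the bounded operator which is the identity on `H^p_-` and zero on `H^p_+`. -/
structure IsRieszMinus (p : ℝ≥0∞) (P : LpR p → LpR p) : Prop where
  bounded : ∃ C : ℝ≥0, ∀ f : LpR p, eLpNorm (fn (P f)) p volume ≤ C * eLpNorm (fn f) p volume
  mem : ∀ f : LpR p, IsHardy (-1) p (fn (P f))
  compl : ∀ f : LpR p, IsHardy 1 p (fun x => fn f x - fn (P f) x)
  fix : ∀ f : LpR p, IsHardy (-1) p (fn f) → P f = f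
  kill : ∀ f : LpR p, IsHardy 1 p (fn f) → P f = 0

/-- `(H^p_-)^n`, the `n`-tuples of elements of the Hardy space of the lower half plane, inside
`L^p(ℝ)^n` -/
def HminusN (p : ℝ≥0∞) (n : ℕ) : Set (Fin n → LpR p) :=
  {f | ∀ i, IsHardy (-1) p (fn (f i))}

variable {p : ℝ≥0∞} [Fact (1 ≤ p)] {n : ℕ}

theorem memLp_row (g : Fin n → (ℝ →ᵇ ℂ)) (f : Fin n → LpR p) :
    MemLp (fun x => ∑ j, g j x * fn (f j) x) p volume :=
  memLp_finsetSum _ fun j _ => TAPfull.memLp_mul (g j) (f j)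

/-- the Toeplitz operator `T_G = P_- G`: the `i`-th component of `T_G f` is
`P_- (G_{i1} f_1 + ... + G_{in} f_n)` -/
noncomputable def toeplitz (P : LpR p → LpR p) (G : Matrix (Fin n) (Fin n) (ℝ →ᵇ ℂ))
    (f : Fin n → LpR p) : Fin n → LpR p :=
  fun i => P ((memLp_row (G i) f).toLp (fun x => ∑ j, G i j x * fn (f j) x))

/-- `f` is a linear combination of `v 0, ..., v (m-1)` -/
def InSpan {m : ℕ} (v : Fin m → Fin n → LpR p) (f : Fin n → LpR p) : Prop :=
  ∃ c : Fin m → ℂ, ∀ i, fn (f i) =ᵐ[volume] fun x => ∑ k, c k * fn (v k i) x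

/-- `T_G` is left-Fredholm on `(H^p_-)^n`: closed range, finite dimensional kernel -/
def LeftFredholm (P : LpR p → LpR p) (G : Matrix (Fin n) (Fin n) (ℝ →ᵇ ℂ)) : Prop :=
  IsClosed (toeplitz P G '' HminusN p n) ∧
    ∃ (m : ℕ) (v : Fin m → Fin n → LpR p), ∀ f ∈ HminusN p n,
      toeplitz P G f = 0 → InSpan v f

/-- `T_G` is right-Fredholm on `(H^p_-)^n`: closed range of finite codimension -/
def RightFredholm (P : LpR p → LpR p) (G : Matrix (Fin n) (Fin n) (ℝ →ᵇ ℂ)) : Prop :=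
  IsClosed (toeplitz P G '' HminusN p n) ∧
    ∃ (m : ℕ) (v : Fin m → Fin n → LpR p), ∀ g ∈ HminusN p n,
      ∃ f ∈ HminusN p n, InSpan v (g - toeplitz P G f)

/-- `T_G` is Fredholm on `(H^p_-)^n` -/
def IsFredholm (P : LpR p → LpR p) (G : Matrix (Fin n) (Fin n) (ℝ →ᵇ ℂ)) : Prop :=
  LeftFredholm P G ∧ RightFredholm P G

/-- `T_G` is invertible on `(H^p_-)^n`: it has a bounded two sided inverse `S` -/
def IsInvertible (P : LpR p → LpR p) (G : Matrix (Fin n) (Fin n) (ℝ →ᵇ ℂ)) : Prop :=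
  ∃ S : (Fin n → LpR p) → (Fin n → LpR p),
    (∃ C : ℝ, ∀ g ∈ HminusN p n, ‖S g‖ ≤ C * ‖g‖) ∧
    (∀ g ∈ HminusN p n, S g ∈ HminusN p n ∧ toeplitz P G (S g) = g) ∧
    ∀ f ∈ HminusN p n, S (toeplitz P G f) = f

theorem isAP_iff {g : ℝ →ᵇ ℂ} : IsAP g ↔ g ∈ TAPfull.AP := by
  have : {e : ℝ →ᵇ ℂ | ∃ lam : ℝ, ∀ t : ℝ, e t = Complex.exp (Complex.I * (lam * t))}
      = Set.range TAPfull.expo := by
    ext e
    constructor
    · rintro ⟨lam, h⟩
      refine ⟨lam, ?_⟩
      ext t
      rw [h t]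
      show Complex.exp (Complex.I * ((lam * t : ℝ) : ℂ)) = _
      push_cast
      rfl
    · rintro ⟨lam, rfl⟩
      refine ⟨lam, fun t => ?_⟩
      show Complex.exp (Complex.I * ((lam * t : ℝ) : ℂ)) = _
      push_cast
      rfl
  unfold IsAP
  rw [this]
  rfl

omit [Fact (1 ≤ p)] in
theorem isHardy_iff {s : ℝ} (f : LpR p) : IsHardy s p (fn f) ↔ TAPfull.IsHardy s p f := Iff.rfl

omit [Fact (1 ≤ p)] in
theorem isHardy_congr {s : ℝ} {f g : ℝ → ℂ} (h : f =ᵐ[volume] g) (hf : IsHardy s p f) :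
    IsHardy s p g := by
  obtain ⟨F, h1, h2, h3⟩ := hf
  refine ⟨F, h1, h2, h3.congr fun y => eLpNorm_congr_ae ?_⟩
  filter_upwards [h] with x hx
  rw [hx]

theorem compl' {P : LpR p → LpR p} (hP : IsRieszMinus p P) (f : LpR p) :
    IsHardy 1 p (fn (f - P f)) :=
  isHardy_congr (Lp.coeFn_sub f (P f)).symm (hP.compl f)

theorem inter_zero {P : LpR p → LpR p} (hP : IsRieszMinus p P) {h : LpR p}
    (h1 : IsHardy 1 p (fn h)) (h2 : IsHardy (-1) p (fn h)) : h = 0 := by
  rw [← hP.fix h h2]; exact hP.kill h h1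

theorem eq_of {P : LpR p → LpR p} (hP : IsRieszMinus p P) {f g : LpR p}
    (h1 : IsHardy 1 p (fn (f - g))) (h2 : IsHardy (-1) p (fn g)) : P f = g := by
  have a1 : IsHardy 1 p (fn ((f - g) - (f - P f))) := by
    have := TAPfull.isHardy_add (by norm_num) ((isHardy_iff _).1 h1)
      (TAPfull.isHardy_smul (-1 : ℂ) ((isHardy_iff _).1 (compl' hP f)))
    rw [neg_one_smul, ← sub_eq_add_neg] at this
    exact this
  have a2 : IsHardy (-1) p (fn (P f - g)) := by
    have := TAPfull.isHardy_add (by norm_num) ((isHardy_iff _).1 (hP.mem f))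
      (TAPfull.isHardy_smul (-1 : ℂ) ((isHardy_iff _).1 h2))
    rw [neg_one_smul, ← sub_eq_add_neg] at this
    exact this
  have a3 : (f - g) - (f - P f) = P f - g := by abel
  rw [a3] at a1
  exact sub_eq_zero.1 (inter_zero hP a1 a2)

theorem exists_clm {P : LpR p → LpR p} (hP : IsRieszMinus p P) :
    ∃ Q : Lp ℂ p (volume : Measure ℝ) →L[ℂ] Lp ℂ p (volume : Measure ℝ),
      TAPfull.IsRieszMinus p Q ∧ ∀ f, Q f = P f := by
  obtain ⟨C, hC⟩ := hP.bounded
  have hC' : ∀ f : LpR p, ‖P f‖ ≤ C * ‖f‖ := by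
    intro f
    have h1 := hC f
    have h2 : (C : ℝ≥0∞) * eLpNorm (fn f) p volume ≠ ∞ :=
      ENNReal.mul_ne_top ENNReal.coe_ne_top (Lp.eLpNorm_ne_top f)
    have h3 := ENNReal.toReal_mono h2 h1
    rw [ENNReal.toReal_mul, ENNReal.coe_toReal] at h3
    rw [Lp.norm_def, Lp.norm_def]
    exact h3
  let L : Lp ℂ p (volume : Measure ℝ) →ₗ[ℂ] Lp ℂ p (volume : Measure ℝ) :=
    { toFun := P
      map_add' := by
        intro f g
        apply eq_of hP
        · have := TAPfull.isHardy_add (by norm_num) ((isHardy_iff _).1 (compl' hP f))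
            ((isHardy_iff _).1 (compl' hP g))
          have e : f - P f + (g - P g) = f + g - (P f + P g) := by abel
          rw [e] at this
          exact this
        · exact TAPfull.isHardy_add (by norm_num) ((isHardy_iff _).1 (hP.mem f))
            ((isHardy_iff _).1 (hP.mem g))
      map_smul' := by
        intro c f
        apply eq_of hP
        · have := TAPfull.isHardy_smul c ((isHardy_iff _).1 (compl' hP f))
          rw [smul_sub] at this
          exact this
        · exact TAPfull.isHardy_smul c ((isHardy_iff _).1 (hP.mem f)) }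
  exact ⟨L.mkContinuous C hC', ⟨hP.mem, compl' hP, hP.fix, hP.kill⟩, fun f => rfl⟩

omit [Fact (1 ≤ p)] in
theorem fn_ext {f g : LpR p} (h : fn f =ᵐ[volume] fn g) : f = g := Lp.ext h

theorem coeFn_finsetSum {ι : Type} (s : Finset ι) (f : ι → LpR p) :
    fn (∑ k ∈ s, f k) =ᵐ[volume] fun x => ∑ k ∈ s, fn (f k) x := by
  classical
  induction s using Finset.induction_on with
  | empty =>
    simp only [Finset.sum_empty]
    exact Lp.coeFn_zero ℂ p volume
  | insert a s ha ih =>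
    rw [Finset.sum_insert ha]
    filter_upwards [Lp.coeFn_add (f a) (∑ k ∈ s, f k), ih] with x h1 h2
    rw [Finset.sum_insert ha, ← h2]
    exact h1

theorem inSpan_mem {m : ℕ} {v : Fin m → Fin n → LpR p} {f : Fin n → LpR p} (h : InSpan v f) :
    f ∈ Submodule.span ℂ (Set.range v) := by
  obtain ⟨c, hc⟩ := h
  have e : f = ∑ k, c k • v k := by
    funext i
    apply fn_ext
    rw [Finset.sum_apply]
    refine (hc i).trans ?_
    refine EventuallyEq.trans ?_ (coeFn_finsetSum Finset.univ (fun k => (c k • v k) i)).symm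
    have h2 : ∀ k, fn ((c k • v k) i) =ᵐ[volume] fun x => c k * fn (v k i) x :=
      fun k => Lp.coeFn_smul (c k) (v k i)
    filter_upwards [ae_all_iff.2 h2] with x hx
    exact Finset.sum_congr rfl fun k _ => (hx k).symm
  rw [e]
  exact Submodule.sum_mem _ fun k _ => Submodule.smul_mem _ _ (Submodule.subset_span ⟨k, rfl⟩)

/-- the inclusion of `(H^p_-)^n` in `L^p(ℝ)^n` -/
noncomputable def incl (p : ℝ≥0∞) [Fact (1 ≤ p)] (n : ℕ) :
    (Fin n → TAPfull.Hminus p) →L[ℂ] (Fin n → Lp ℂ p (volume : Measure ℝ)) :=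
  ContinuousLinearMap.pi fun i =>
    (TAPfull.Hminus p).subtypeL.comp (ContinuousLinearMap.proj i)

theorem incl_inj : Function.Injective (incl p n) := by
  intro f g h
  funext i
  exact Subtype.ext (congrFun h i)

theorem incl_mem (f : Fin n → TAPfull.Hminus p) : incl p n f ∈ HminusN p n := fun i => (f i).2

theorem row_eq (g : Fin n → (ℝ →ᵇ ℂ)) (f : Fin n → LpR p) :
    (memLp_row g f).toLp (fun x => ∑ j, g j x * fn (f j) x) = ∑ j, TAPfull.mulOp (g j) (f j) := by
  apply fn_ext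
  refine (memLp_row g f).coeFn_toLp.trans ?_
  refine EventuallyEq.trans ?_ (coeFn_finsetSum Finset.univ (fun j => TAPfull.mulOp (g j) (f j))).symm
  have h2 : ∀ j, fn (TAPfull.mulOp (g j) (f j)) =ᵐ[volume] fun x => g j x * fn (f j) x :=
    fun j => TAPfull.mulOp_coe (g j) (f j)
  filter_upwards [ae_all_iff.2 h2] with x hx
  exact Finset.sum_congr rfl fun k _ => (hx k).symm

theorem incl_surj {g : Fin n → Lp ℂ p (volume : Measure ℝ)} (hg : g ∈ HminusN p n) :
    ∃ f, incl p n f = g := ⟨fun i => ⟨g i, hg i⟩, rfl⟩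

theorem incl_norm (f : Fin n → TAPfull.Hminus p) : ‖incl p n f‖ = ‖f‖ := by
  apply le_antisymm
  · exact (pi_norm_le_iff_of_nonneg (norm_nonneg _)).2 fun i => norm_le_pi_norm f i
  · exact (pi_norm_le_iff_of_nonneg (norm_nonneg _)).2 fun i => norm_le_pi_norm (incl p n f) i

theorem incl_toeplitz {P : LpR p → LpR p}
    {Q : Lp ℂ p (volume : Measure ℝ) →L[ℂ] Lp ℂ p (volume : Measure ℝ)}
    (hQ : TAPfull.IsRieszMinus p Q) (hPQ : ∀ f, Q f = P f)
    (G : Matrix (Fin n) (Fin n) (ℝ →ᵇ ℂ)) (f : Fin n → TAPfull.Hminus p) :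
    toeplitz P G (incl p n f) = incl p n (TAPfull.toeplitz Q hQ G f) := by
  funext i
  refine Eq.trans ?_ (TAPfull.toeplitz_apply Q hQ G f i).symm
  rw [hPQ]
  exact congrArg P (row_eq (G i) (incl p n f))

theorem closed_range {P : LpR p → LpR p}
    {Q : Lp ℂ p (volume : Measure ℝ) →L[ℂ] Lp ℂ p (volume : Measure ℝ)}
    (hQ : TAPfull.IsRieszMinus p Q) (hPQ : ∀ f, Q f = P f)
    (G : Matrix (Fin n) (Fin n) (ℝ →ᵇ ℂ)) (h : IsClosed (toeplitz P G '' HminusN p n)) :
    IsClosed (Set.range (TAPfull.toeplitz Q hQ G)) := by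
  have e : Set.range (TAPfull.toeplitz Q hQ G) = incl p n ⁻¹' (toeplitz P G '' HminusN p n) := by
    ext g
    constructor
    · rintro ⟨f, rfl⟩
      exact ⟨incl p n f, incl_mem f, incl_toeplitz hQ hPQ G f⟩
    · rintro ⟨f, hf, hfg⟩
      obtain ⟨f', rfl⟩ := incl_surj hf
      rw [incl_toeplitz hQ hPQ G f'] at hfg
      exact ⟨f', incl_inj hfg⟩
  rw [e]
  exact h.preimage (incl p n).continuous

theorem left_tr {P : LpR p → LpR p}
    {Q : Lp ℂ p (volume : Measure ℝ) →L[ℂ] Lp ℂ p (volume : Measure ℝ)}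
    (hQ : TAPfull.IsRieszMinus p Q) (hPQ : ∀ f, Q f = P f)
    (G : Matrix (Fin n) (Fin n) (ℝ →ᵇ ℂ)) (h : LeftFredholm P G) :
    TAPfull.LeftFredholm (X := Fin n → TAPfull.Hminus p) (TAPfull.toeplitz Q hQ G) := by
  obtain ⟨h1, m, v, hv⟩ := h
  refine ⟨?_, ?_⟩
  · have := closed_range hQ hPQ G h1
    exact this
  · have : FiniteDimensional ℂ (Submodule.span ℂ (Set.range v)) :=
      FiniteDimensional.span_of_finite ℂ (Set.finite_range v)
    let K := LinearMap.ker (TAPfull.toeplitz Q hQ G).toLinearMap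
    let L : K →ₗ[ℂ] Submodule.span ℂ (Set.range v) :=
      ((incl p n).toLinearMap.comp K.subtype).codRestrict _ (by
        rintro ⟨f, hf⟩
        apply inSpan_mem
        apply hv _ (incl_mem f)
        rw [incl_toeplitz hQ hPQ G f]
        have : TAPfull.toeplitz Q hQ G f = 0 := hf
        rw [this, map_zero])
    have hL : Function.Injective L := by
      intro a b hab
      apply Subtype.ext
      apply incl_inj (p := p) (n := n)
      exact congrArg Subtype.val hab
    exact FiniteDimensional.of_injective L hL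

theorem right_tr {P : LpR p → LpR p}
    {Q : Lp ℂ p (volume : Measure ℝ) →L[ℂ] Lp ℂ p (volume : Measure ℝ)}
    (hQ : TAPfull.IsRieszMinus p Q) (hPQ : ∀ f, Q f = P f)
    (G : Matrix (Fin n) (Fin n) (ℝ →ᵇ ℂ)) (h : RightFredholm P G) :
    TAPfull.RightFredholm (X := Fin n → TAPfull.Hminus p) (TAPfull.toeplitz Q hQ G) := by
  obtain ⟨h1, m, v, hv⟩ := h
  refine ⟨?_, ?_⟩
  · have := closed_range hQ hPQ G h1
    exact this
  · have : FiniteDimensional ℂ (Submodule.span ℂ (Set.range v)) :=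
      FiniteDimensional.span_of_finite ℂ (Set.finite_range v)
    let R := LinearMap.range (TAPfull.toeplitz Q hQ G).toLinearMap
    let W := (Submodule.span ℂ (Set.range v)).comap (incl p n).toLinearMap
    let LW : W →ₗ[ℂ] Submodule.span ℂ (Set.range v) :=
      ((incl p n).toLinearMap.comp W.subtype).codRestrict _ (fun f => f.2)
    have hLW : Function.Injective LW := by
      intro a b hab
      apply Subtype.ext
      apply incl_inj (p := p) (n := n)
      exact congrArg Subtype.val hab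
    have hW : FiniteDimensional ℂ W := FiniteDimensional.of_injective LW hLW
    let M : W →ₗ[ℂ] ((Fin n → TAPfull.Hminus p) ⧸ R) := R.mkQ.comp W.subtype
    have hM : Function.Surjective M := by
      intro y
      obtain ⟨g, rfl⟩ := R.mkQ_surjective y
      obtain ⟨f, hf, hfg'⟩ := hv _ (incl_mem g)
      have hfg := inSpan_mem hfg'
      obtain ⟨f', rfl⟩ := incl_surj hf
      rw [incl_toeplitz hQ hPQ G f', ← map_sub] at hfg
      refine ⟨⟨g - TAPfull.toeplitz Q hQ G f', hfg⟩, ?_⟩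
      show R.mkQ (g - TAPfull.toeplitz Q hQ G f') = R.mkQ g
      rw [map_sub, sub_eq_self]
      exact (Submodule.Quotient.mk_eq_zero R).2 ⟨f', rfl⟩
    exact Module.Finite.of_surjective M hM

/-- **Q2, affirmative for every `1 < p < ∞` and every `n`.** Let `G` be an `n × n` matrix of almost
periodic functions, let `P` be the Riesz projection of `L^p(ℝ)` onto `H^p_-` and let
`T_G = P G` be the Toeplitz operator on `(H^p_-)^n`. If `T_G` is Fredholm then it is invertible.
More precisely, a left-Fredholm `T_G` is injective on `(H^p_-)^n`, and a right-Fredholm `T_G` maps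
`(H^p_-)^n` onto `(H^p_-)^n`. -/
theorem result (p : ℝ≥0∞) [Fact (1 ≤ p)] (hp1 : 1 < p) (hp : p ≠ ∞)
    (P : LpR p → LpR p) (hP : IsRieszMinus p P)
    (n : ℕ) (G : Matrix (Fin n) (Fin n) (ℝ →ᵇ ℂ)) (hG : ∀ i j, IsAP (G i j)) :
    (IsFredholm P G → IsInvertible P G) ∧
      (LeftFredholm P G → Set.InjOn (toeplitz P G) (HminusN p n)) ∧
      (RightFredholm P G → Set.SurjOn (toeplitz P G) (HminusN p n) (HminusN p n)) := by
  obtain ⟨Q, hQ, hPQ⟩ := exists_clm hP
  have hG' : ∀ i j, G i j ∈ TAPfull.AP := fun i j => isAP_iff.1 (hG i j)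
  have hcs : CompleteSpace (TAPfull.Hminus p) := (TAPfull.hminus_closed hQ).completeSpace_coe
  have hcs2 : CompleteSpace (Fin n → TAPfull.Hminus p) := inferInstance
  have h1 : LeftFredholm P G → Function.Injective (TAPfull.toeplitz Q hQ G) := fun h =>
    TAPfull.main_inj hp1 hp _ hQ n G hG' (left_tr hQ hPQ G h)
  have h2 : RightFredholm P G → Function.Surjective (TAPfull.toeplitz Q hQ G) := fun h =>
    TAPfull.main_surj hp1 hp _ hQ n G hG' (right_tr hQ hPQ G h)
  refine ⟨fun h => ?_, fun h => ?_, fun h => ?_⟩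
  · have hu : IsUnit (TAPfull.toeplitz Q hQ G) :=
      TAPfull.main_unit hp1 hp Q hQ n G hG' ⟨left_tr hQ hPQ G h.1, right_tr hQ hPQ G h.2⟩
    obtain ⟨u, hu⟩ := hu
    obtain ⟨A, hA1, hA2⟩ : ∃ A : (Fin n → TAPfull.Hminus p) →L[ℂ] (Fin n → TAPfull.Hminus p),
        (∀ x, TAPfull.toeplitz Q hQ G (A x) = x) ∧ ∀ x, A (TAPfull.toeplitz Q hQ G x) = x := by
      refine ⟨u.inv, fun x => ?_, fun x => ?_⟩
      · rw [← hu]
        exact congrArg (fun B : (Fin n → TAPfull.Hminus p) →L[ℂ] (Fin n → TAPfull.Hminus p) => B x)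
          u.val_inv
      · rw [← hu]
        exact congrArg (fun B : (Fin n → TAPfull.Hminus p) →L[ℂ] (Fin n → TAPfull.Hminus p) => B x)
          u.inv_val
    classical
    let S : (Fin n → Lp ℂ p (volume : Measure ℝ)) → (Fin n → Lp ℂ p (volume : Measure ℝ)) :=
      fun g => if hg : g ∈ HminusN p n then incl p n (A (fun i => ⟨g i, hg i⟩)) else 0
    have hS : ∀ g : Fin n → TAPfull.Hminus p, S (incl p n g) = incl p n (A g) := by
      intro g
      exact dif_pos (incl_mem g)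
    refine ⟨S, ⟨‖A‖, ?_⟩, ?_, ?_⟩
    · intro g hg
      obtain ⟨g', rfl⟩ := incl_surj hg
      rw [hS, incl_norm, incl_norm]
      exact A.le_opNorm g'
    · intro g hg
      obtain ⟨g', rfl⟩ := incl_surj hg
      rw [hS]
      refine ⟨incl_mem _, ?_⟩
      rw [incl_toeplitz hQ hPQ G]
      congr 1
      exact hA1 g'
    · intro f hf
      obtain ⟨f', rfl⟩ := incl_surj hf
      rw [incl_toeplitz hQ hPQ G, hS]
      congr 1
      exact hA2 f'
  · intro f hf g hg hfg
    obtain ⟨f', rfl⟩ := incl_surj hf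
    obtain ⟨g', rfl⟩ := incl_surj hg
    rw [incl_toeplitz hQ hPQ G, incl_toeplitz hQ hPQ G] at hfg
    rw [h1 h (incl_inj hfg)]
  · intro g hg
    obtain ⟨g', rfl⟩ := incl_surj hg
    obtain ⟨f', rfl⟩ := h2 h g'
    exact ⟨incl p n f', incl_mem f', incl_toeplitz hQ hPQ G f'⟩

end Pool.Agent.Results.MP_a3f7df_an.FredholmInvertible
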